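import Pool.Agent.V7H76.AD.Spec2

/-! The digit sets of the second part of project AD. -/

set_option autoImplicit false

namespace Pool.Agent.V7H10.AD

open Finset Pool.Agent.V7H76.AD
open scoped Classical

lemma mem_succ {Bf : ℕ} {D : Finset ℕ} {k α : ℕ} :
    α ∈ dset Bf D (k + 1) ↔ ∃ β ∈ dset Bf D k, ∃ d ∈ D, β + d * Bf ^ k = α := by
  rw [dset, mem_image]
  constructor
  · rintro ⟨p, hp, h⟩
    rw [mem_product] at hp
    exact ⟨p.1, hp.1, p.2, hp.2, h⟩
  · rintro ⟨β, hβ, d, hd, h⟩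
    exact ⟨(β, d), mem_product.2 ⟨hβ, hd⟩, h⟩

lemma two_lt {s : ℕ} {D : Finset ℕ} (hs : 2 ≤ s) (hD : ∀ d ∈ D, d < 2 ^ (s - 1)) :
    ∀ k, ∀ α ∈ dset (2 ^ s) D k, 2 * α < (2 ^ s) ^ k := by
  have hss : 2 ^ s = 2 * 2 ^ (s - 1) := by
    rw [← pow_succ']
    congr 1
    omega
  intro k
  induction k with
  | zero =>
    intro α hα
    rw [dset, mem_singleton] at hα
    subst hα
    norm_num
  | succ k ih =>
    intro α hα
    obtain ⟨β, hβ, d, hd, rfl⟩ := mem_succ.1 hα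
    have h1 := ih β hβ
    have h2 := hD d hd
    have h3 : 2 * d + 2 ≤ 2 ^ s := by rw [hss]; omega
    calc 2 * (β + d * (2 ^ s) ^ k) = 2 * β + 2 * d * (2 ^ s) ^ k := by ring
      _ < (2 ^ s) ^ k + 2 * d * (2 ^ s) ^ k := by omega
      _ = (2 * d + 1) * (2 ^ s) ^ k := by ring
      _ ≤ 2 ^ s * (2 ^ s) ^ k := Nat.mul_le_mul_right _ (by omega)
      _ = (2 ^ s) ^ (k + 1) := by ring

lemma mod_eq {B k β d : ℕ} (h : β < B ^ k) : (β + d * B ^ k) % B ^ k = β := by
  rw [Nat.add_mul_mod_self_right, Nat.mod_eq_of_lt h]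

lemma div_eq {B k β d : ℕ} (h : β < B ^ k) : (β + d * B ^ k) / B ^ k = d := by
  have h0 : 0 < B ^ k := by omega
  rw [Nat.add_mul_div_right _ _ h0, Nat.div_eq_of_lt h, zero_add]

lemma card_succ {s : ℕ} {D : Finset ℕ} (hs : 2 ≤ s) (hD : ∀ d ∈ D, d < 2 ^ (s - 1)) (k : ℕ) :
    (dset (2 ^ s) D (k + 1)).card = (dset (2 ^ s) D k).card * D.card := by
  rw [dset, card_image_of_injOn, card_product]
  rintro ⟨a, d⟩ h1 ⟨b, e⟩ h2 h
  simp only [coe_product, Set.mem_prod, mem_coe] at h1 h2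
  have ha : a < (2 ^ s) ^ k := by
    have := two_lt hs hD k a h1.1
    omega
  have hb : b < (2 ^ s) ^ k := by
    have := two_lt hs hD k b h2.1
    omega
  have h' : a + d * (2 ^ s) ^ k = b + e * (2 ^ s) ^ k := h
  have e1 := mod_eq (d := d) ha
  have e2 := div_eq (d := d) ha
  rw [h', mod_eq hb] at e1
  rw [h', div_eq hb] at e2
  rw [e1, e2]

lemma card_dset {s : ℕ} {D : Finset ℕ} (hs : 2 ≤ s) (hD : ∀ d ∈ D, d < 2 ^ (s - 1)) :
    ∀ k, (dset (2 ^ s) D k).card = D.card ^ k := by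
  intro k
  induction k with
  | zero => simp [dset]
  | succ k ih => rw [card_succ hs hD, ih, pow_succ]

lemma free {s : ℕ} {D : Finset ℕ} (hs : 2 ≤ s) (hD : ∀ d ∈ D, d < 2 ^ (s - 1))
    (hF : ThreeAPFree (D : Set ℕ)) : ∀ k, ThreeAPFree ((dset (2 ^ s) D k : Finset ℕ) : Set ℕ) := by
  intro k
  induction k with
  | zero =>
    intro a ha b hb c hc _
    rw [mem_coe, dset, mem_singleton] at ha hb
    rw [ha, hb]
  | succ k ih =>
    intro a ha b hb c hc h
    rw [mem_coe] at ha hb hc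
    obtain ⟨a', ha', x, hx, rfl⟩ := mem_succ.1 ha
    obtain ⟨b', hb', y, hy, rfl⟩ := mem_succ.1 hb
    obtain ⟨c', hc', z, hz, rfl⟩ := mem_succ.1 hc
    have h1 := two_lt hs hD k a' ha'
    have h2 := two_lt hs hD k b' hb'
    have h3 := two_lt hs hD k c' hc'
    have h4 : (a' + c') + (x + z) * (2 ^ s) ^ k = (b' + b') + (y + y) * (2 ^ s) ^ k := by
      linarith
    have h5 : a' + c' < (2 ^ s) ^ k := by omega
    have h6 : b' + b' < (2 ^ s) ^ k := by omega
    have e1 := mod_eq (d := x + z) h5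
    have e2 := div_eq (d := x + z) h5
    rw [h4, mod_eq h6] at e1
    rw [h4, div_eq h6] at e2
    have e3 : a' = b' := ih (mem_coe.2 ha') (mem_coe.2 hb') (mem_coe.2 hc') e1.symm
    have e4 : x = y := hF (mem_coe.2 hx) (mem_coe.2 hy) (mem_coe.2 hz) e2.symm
    rw [e3, e4]

theorem t_DIG : S_DIG := by
  intro s D hs hD hF k hk
  have hsk : 1 ≤ s * k := Nat.mul_pos (by omega) hk
  have hpow : 2 * 2 ^ (s * k - 1) = (2 ^ s) ^ k := by
    rw [← pow_succ', ← pow_mul]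
    congr 1
    omega
  refine ⟨card_dset hs hD k, ?_, free hs hD hF k, ?_, ?_⟩
  · intro α hα
    have h1 := two_lt hs hD k α hα
    rw [← hpow] at h1
    omega
  · intro α hα
    obtain ⟨β, hβ, d, hd, rfl⟩ := mem_succ.1 hα
    have h1 := two_lt hs hD k β hβ
    rw [hpow, mod_eq (by omega)]
    exact hβ
  · intro α' hα'
    rw [card_succ hs hD]
    apply Nat.mul_le_mul_left
    have h1 : (dset (2 ^ s) D (k + 1)).filter (fun α => α % (2 * 2 ^ (s * k - 1)) = α') ⊆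
        D.image (fun d => α' + d * (2 ^ s) ^ k) := by
      intro α hα
      rw [mem_filter] at hα
      obtain ⟨β, hβ, d, hd, rfl⟩ := mem_succ.1 hα.1
      have h2 := two_lt hs hD k β hβ
      rw [hpow, mod_eq (by omega)] at hα
      rw [mem_image]
      exact ⟨d, hd, by rw [hα.2]⟩
    exact (card_le_card h1).trans card_image_le

end Pool.Agent.V7H10.AD
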